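import Pool.Agent.MP_db5b97_nt.H85.Spec2

/-! Comparison of a cyclic layer with its base change to an inert extension. -/

namespace Pool.Agent.MP_db5b97_nt.H35

open H85 NumberField IsDedekindDomain Polynomial

section Alg

variable {A A' : Type} [AddCommGroup A] [AddCommGroup A']

theorem eq_of_index {S T : AddSubgroup A} (h : S ≤ T) (h0 : S.index ≠ 0)
    (he : T.index = S.index) : T = S := by
  have h1 := AddSubgroup.relIndex_mul_index h
  rw [he] at h1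
  exact le_antisymm (AddSubgroup.relIndex_eq_one.1 ((mul_eq_right₀ h0).1 h1)) h

theorem comap_eq (φ : A' →+ A) {S : AddSubgroup A} {S' : AddSubgroup A'} (h : S' ≤ S.comap φ)
    (ht : S ⊔ φ.range = ⊤) (h0 : S'.index ≠ 0) (he : S.index = S'.index) : S.comap φ = S' :=
  eq_of_index h h0 (by
    rw [AddSubgroup.index_comap, ← AddSubgroup.relIndex_sup_left, ht, AddSubgroup.relIndex_top_right,
      he])

theorem sup_top {p : ℕ} (hp : p.Prime) {S T : AddSubgroup A} (h : S.index = p) (hT : ¬ T ≤ S) :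
    S ⊔ T = ⊤ := by
  have h1 : (S ⊔ T).index ∣ p := h ▸ AddSubgroup.index_dvd_of_le le_sup_left
  rcases (Nat.dvd_prime hp).1 h1 with h2 | h2
  · exact AddSubgroup.index_eq_one.1 h2
  · exact (hT (le_sup_right.trans
      (eq_of_index le_sup_left (h ▸ hp.ne_zero) (h2.trans h.symm)).le)).elim

theorem hc_congr (e : A' ≃+ A) {f g : A →+ A} {f' g' : A' →+ A'} (hf : ∀ x, e (f' x) = f (e x))
    (hg : ∀ x, e (g' x) = g (e x)) : hc f g = hc f' g' := by
  have h1 : g.range = g'.range.map e.toAddMonoidHom := by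
    ext x
    constructor
    · rintro ⟨y, rfl⟩
      exact ⟨_, ⟨e.symm y, rfl⟩, by simp [hg]⟩
    · rintro ⟨_, ⟨y, rfl⟩, rfl⟩
      exact ⟨e y, (hg y).symm⟩
  have h2 : f.ker = f'.ker.map e.toAddMonoidHom := by
    ext x
    constructor
    · intro h
      refine ⟨e.symm x, e.injective ?_, by simp⟩
      rw [hf, e.apply_symm_apply, map_zero]
      exact h
    · rintro ⟨y, hy, rfl⟩
      show f (e y) = 0
      rw [← hf, show f' y = 0 from hy, map_zero]
  rw [hc, hc, h1, h2, AddSubgroup.relIndex_map_map_of_injective _ _ e.injective]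

theorem chase {U' I' U I : Type} [AddCommGroup U'] [AddCommGroup I'] [AddCommGroup U]
    [AddCommGroup I] (a' : U' →+ I') (a : U →+ I) (nU : U' →+ U) (nI : I' →+ I)
    (NU' R' : AddSubgroup U') (NI' : AddSubgroup I') (NU R : AddSubgroup U) (NI : AddSubgroup I)
    (hc : ∀ x, a (nU x) = nI (a' x)) (ha' : ∀ x ∈ NU', a' x ∈ NI') (ha : ∀ x ∈ NU, a x ∈ NI)
    (hR : ∀ x ∈ R', nU x ∈ R) (hI : ∀ x ∈ NI', nI x ∈ NI)
    (hA' : ∀ x ∈ R', a' x ∈ NI' → x ∈ NU') (hA : ∀ x ∈ R, a x ∈ NI → x ∈ NU)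
    (hB1 : (NI ⊔ R.map a).comap nI = NI' ⊔ R'.map a') (hB2 : (NI ⊔ R.map a) ⊔ nI.range = ⊤)
    (hC1 : (NU ⊔ R).comap nU = NU' ⊔ R') (hC2 : (NU ⊔ R) ⊔ nU.range = ⊤) :
    (∀ x, a' x ∈ NI' → nU x ∈ NU → x ∈ NU') ∧
    (∀ x, a x ∈ NI → ∃ x', a' x' ∈ NI' ∧ nU x' - x ∈ NU) ∧
    (∀ D x, nI D - a x ∈ NI → ∃ x', D - a' x' ∈ NI') ∧
    ∀ D, ∃ D' x, D - nI D' - a x ∈ NI := by
  have hl : ∀ x ∈ NU ⊔ R, a x ∈ NI ⊔ R.map a := fun x hx => by
    obtain ⟨n, hn, r, hr, rfl⟩ := AddSubgroup.mem_sup.1 hx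
    rw [map_add]
    exact AddSubgroup.add_mem_sup (ha n hn) ⟨r, hr, rfl⟩
  have hs : ∀ x, ∃ y, x - nU y ∈ NU ⊔ R := fun x => by
    obtain ⟨n, hn, _, ⟨y, rfl⟩, rfl⟩ := AddSubgroup.mem_sup.1 (hC2 ▸ AddSubgroup.mem_top x)
    exact ⟨y, by simpa using hn⟩
  have h3 : ∀ D x, nI D - a x ∈ NI → ∃ y, ∃ r ∈ R', x - nU y ∈ NU ⊔ R ∧ D - a' (y + r) ∈ NI' := by
    intro D x h
    obtain ⟨y, hy⟩ := hs x
    have h1 : D - a' y ∈ NI' ⊔ R'.map a' := by
      rw [← hB1, AddSubgroup.mem_comap, map_sub, ← hc]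
      convert add_mem (AddSubgroup.mem_sup_left h) (hl _ hy) using 1
      rw [map_sub]
      abel
    obtain ⟨n, hn, _, ⟨r, hr, rfl⟩, e⟩ := AddSubgroup.mem_sup.1 h1
    refine ⟨y, r, hr, hy, ?_⟩
    rw [map_add, ← sub_sub, ← e, add_sub_cancel_right]
    exact hn
  refine ⟨fun x h1 h2 => ?_, fun x h => ?_, fun D x h => ?_, fun D => ?_⟩
  · have : x ∈ NU' ⊔ R' := hC1 ▸ AddSubgroup.mem_sup_left (T := R) h2
    obtain ⟨n, hn, r, hr, rfl⟩ := AddSubgroup.mem_sup.1 this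
    refine add_mem hn (hA' r hr ?_)
    simpa using sub_mem h1 (ha' n hn)
  · obtain ⟨y, r, hr, hy, h1⟩ := h3 0 x (by simpa using h)
    have h2 : a' (y + r) ∈ NI' := by simpa only [zero_sub, neg_mem_iff] using h1
    refine ⟨y + r, h2, ?_⟩
    have h4 : nU (y + r) - x ∈ NU ⊔ R := by
      convert sub_mem (AddSubgroup.mem_sup_right (hR r hr)) hy using 1
      rw [map_add]
      abel
    have h5 : a (nU (y + r) - x) ∈ NI := by
      rw [map_sub, hc]
      exact sub_mem (hI _ h2) h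
    obtain ⟨n, hn, s, hs, e⟩ := AddSubgroup.mem_sup.1 h4
    rw [← e] at h5 ⊢
    refine add_mem hn (hA s hs ?_)
    simpa using sub_mem h5 (ha n hn)
  · obtain ⟨y, r, -, -, h1⟩ := h3 D x h
    exact ⟨_, h1⟩
  · obtain ⟨_, hn, _, ⟨D', rfl⟩, rfl⟩ := AddSubgroup.mem_sup.1 (hB2 ▸ AddSubgroup.mem_top D)
    obtain ⟨n, hn', _, ⟨r, -, rfl⟩, rfl⟩ := AddSubgroup.mem_sup.1 hn
    exact ⟨D', r, by simpa using hn'⟩

end Alg

theorem nrm_nrm (k E F : Type) [Field k] [NumberField k] [Field E] [NumberField E] [Field F]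
    [NumberField F] [Algebra k E] [Algebra E F] [Algebra k F] [IsScalarTower k E F] (x : Un F) :
    Un.nrm k E (Un.nrm E F x) = Un.nrm k F x :=
  Un.ext Algebra.norm_norm

theorem nrD_nrD (hN : RowNT1) (k E F : Type) [Field k] [NumberField k] [Field E] [NumberField E]
    [Field F] [NumberField F] [Algebra k E] [Algebra E F] [Algebra k F] [IsScalarTower k E F]
    (l : ℕ) (D : Dv F l) : nrD E l k (nrD F l E D) = nrD F l k D :=
  DFunLike.congr_fun (hom_ext (f := (nrD E l k).comp (nrD F l E)) (g := nrD F l k) fun x => by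
    rw [AddMonoidHom.comp_apply, ← hN.dv_nrm, ← hN.dv_nrm, ← hN.dv_nrm, nrm_nrm]) D

theorem irr_down {k F : Type} [Field k] [NumberField k] [Field F] [NumberField F] [Algebra k F]
    (w : Sp F) {g : (𝓞 k)[X]} (hg : g.Monic)
    (h : Irreducible ((g.map (algebraMap (𝓞 k) (𝓞 F))).map (Ideal.Quotient.mk w.asIdeal))) :
    Irreducible (g.map (Ideal.Quotient.mk (und k w).asIdeal)) := by
  have := w.isPrime
  have := (und k w).isPrime
  refine (hg.map _).irreducible_of_irreducible_map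
    (Ideal.quotientMap (I := (und k w).asIdeal) w.asIdeal (algebraMap (𝓞 k) (𝓞 F)) le_rfl) _ ?_
  rw [Polynomial.map_map] at h ⊢
  exact h

theorem rowSQ : RowNT1 → RowNT2 → RowLAY → RowS2 → RowIN → RowSQ := by
  intro hN _ hL hS hI p hp k F k' F' G G' _ _ _ _ _ _ _ _ _ _ _ _ _ _ _ _ _ _ _ _ _ σ σ' l α g hG
    hG' hσ hσσ hl hi hu hu' hf hg hα hd hirr
  have hl0 : l ≠ 0 := by omega
  have hσ' : σ' ≠ 1 := fun h => hσ <| by
    have := IsGaloisGroup.faithful (G := G) (A := k) (B := F)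
    refine FaithfulSMul.eq_of_smul_eq_smul (α := F) fun x => (algebraMap F F').injective ?_
    rw [hσσ, h, one_smul, one_smul]
  have hi' : ∃ i : k', i ^ 2 = -1 := by
    obtain ⟨i, hi⟩ := hi
    exact ⟨algebraMap k k' i, by rw [← map_pow, hi, map_neg, map_one]⟩
  obtain ⟨M0, h0⟩ := hL p hp k F G σ l hG hσ hl hi hu
  obtain ⟨M1, h1⟩ := hL p hp k' F' G' σ' l hG' hσ' hl hi' hu'
  obtain ⟨a1, a2, a3, -⟩ := h0 (max M0 M1) (le_max_left _ _)
  obtain ⟨b1, b2, b3, b4⟩ := h1 (max M0 M1) (le_max_right _ _)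
  set M := max M0 M1
  have hR : ∀ x ∈ Ray k' l M, Un.nrm k k' x ∈ Ray k l M := hN.nrm_Ray k k' l M hl0
  have hD : ∀ x ∈ (nrD F' l k').range, nrD k' l k x ∈ (nrD F l k).range := by
    rintro _ ⟨D, rfl⟩
    exact ⟨nrD F' l F D, by rw [nrD_nrD hN, nrD_nrD hN]⟩
  have hU : ∀ x ∈ (Un.nrm k' F').range, Un.nrm k k' x ∈ (Un.nrm k F).range := by
    rintro _ ⟨x, rfl⟩
    exact ⟨Un.nrm F F' x, by rw [nrm_nrm, nrm_nrm]⟩
  have hB2 : ((nrD F l k).range ⊔ (Ray k l M).map (dv k l)) ⊔ (nrD k' l k).range = ⊤ := by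
    obtain ⟨D, hD⟩ := hS p hp k F k' F' G G' σ σ' l M _
      (QuotientAddGroup.mk' ((nrD F l k).range ⊔ (Ray k l M).map (dv k l))) hG hG' hσ hσσ hl hu a2
      (QuotientAddGroup.mk'_surjective _)
      (fun x hx => (QuotientAddGroup.eq_zero_iff _).2 (AddSubgroup.mem_sup_right ⟨x, hx, rfl⟩))
      fun D => (QuotientAddGroup.eq_zero_iff _).2 (AddSubgroup.mem_sup_left ⟨D, rfl⟩)
    exact sup_top hp a2 fun h => hD ((QuotientAddGroup.eq_zero_iff _).2 (h ⟨D, rfl⟩))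
  have hC2 : ((Un.nrm k F).range ⊔ Ray k l M) ⊔ (Un.nrm k k').range = ⊤ := by
    refine eq_top_iff.2 fun x _ => ?_
    obtain ⟨y, hy⟩ := hN.nrm_surj k F l hl0 hf x
    obtain ⟨z, -, hz⟩ := (hI k k' l α g hl hg hα hd fun v => by
      obtain ⟨w, rfl⟩ := (hN.und_surj k F l).1 v
      exact irr_down w.1 hg (hirr w)).2 M _ hy
    have : x = (Un.nrm k F y + (x - Un.nrm k F y - Un.nrm k k' z)) + Un.nrm k k' z := by abel
    rw [this]
    exact AddSubgroup.add_mem_sup (AddSubgroup.add_mem_sup ⟨y, rfl⟩ hz) ⟨z, rfl⟩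
  have hr : Module.finrank F F' = Module.finrank k k' := by
    have e1 := Module.finrank_mul_finrank k F F'
    have e2 := Module.finrank_mul_finrank k k' F'
    rw [← IsGaloisGroup.card_eq_finrank G k F, hG] at e1
    rw [← IsGaloisGroup.card_eq_finrank G' k' F', hG', ← e1, mul_comm] at e2
    exact (Nat.eq_of_mul_eq_mul_left hp.pos e2).symm
  have hinj := (hI F F' l (algebraMap (𝓞 k') (𝓞 F') α) (g.map (algebraMap (𝓞 k) (𝓞 F))) hl
    (hg.map _) (by rw [aeval_map_algebraMap, aeval_algebraMap_apply, hα, map_zero])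
    (by rw [hg.natDegree_map, hd, hr]) hirr).1
  let e0 : Pl F' l ≃ Pl F l := Equiv.ofBijective _ ⟨hinj, (hN.und_surj F F' l).1⟩
  have he0 : ∀ w, e0 (σ' • w) = σ • e0 w := fun w => by
    refine Subtype.ext (HeightOneSpectrum.ext (Ideal.ext fun x => ?_))
    show algebraMap (𝓞 F) (𝓞 F') x ∈ (σ' • w.1).asIdeal ↔ x ∈ (σ • und F w.1).asIdeal
    rw [mem_smul_iff, mem_smul_iff]
    have : σ'⁻¹ • algebraMap (𝓞 F) (𝓞 F') x = algebraMap (𝓞 F) (𝓞 F') (σ⁻¹ • x) := by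
      rw [inv_smul_eq_iff]
      refine RingOfIntegers.ext ?_
      have := hσσ (σ⁻¹ • (x : F))
      rw [smul_inv_smul] at this
      exact this
    rw [this]
    rfl
  let e : (Pl F' l →₀ ℤ) ≃+ (Pl F l →₀ ℤ) := Finsupp.domCongr e0
  have he : ∀ D, e (σ' • D) = σ • e D := fun D => by
    induction D using Finsupp.induction_linear with
    | zero => simp
    | add x y hx hy => simp only [smul_add, map_add, hx, hy]
    | single w n =>
      have h2 : ∀ w, e (Finsupp.single w n) = Finsupp.single (e0 w) n := fun w => by simp [e]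
      rw [h2, show σ' • Finsupp.single w n = _ from Finsupp.comapSMul_single σ' w n, h2, he0]
      exact (Finsupp.comapSMul_single σ _ n).symm
  have hei : ∀ (i : ℕ) D, e (σ' ^ i • D) = σ ^ i • e D := fun i => by
    induction i with
    | zero => simp
    | succ i ih => exact fun D => by rw [pow_succ', pow_succ', mul_smul, mul_smul, he, ih]
  have hhc : hc (A := Pl F l →₀ ℤ) (Df σ) (Nm σ p) = hc (A := Pl F' l →₀ ℤ) (Df σ') (Nm σ' p) :=
    hc_congr e (fun D => by rw [Df_apply, Df_apply, map_sub, he]) fun D => by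
      simp only [Nm_apply, map_sum, hei]
  refine chase (dv k' l) (dv k l) (Un.nrm k k') (nrD k' l k) _ (Ray k' l M) _ _ (Ray k l M) _
    (hN.dv_nrm k k' l) ?_ ?_ hR hD b1 a1 (comap_eq _ ?_ hB2 (b2 ▸ hp.ne_zero) (a2.trans b2.symm))
    hB2 (comap_eq _ ?_ hC2 (b3 ▸ b4) (by rw [a3, b3, hhc])) hC2
  · rintro _ ⟨x, rfl⟩
    exact ⟨_, (hN.dv_nrm k' F' l x).symm⟩
  · rintro _ ⟨x, rfl⟩
    exact ⟨_, (hN.dv_nrm k F l x).symm⟩
  · refine sup_le (fun x hx => AddSubgroup.mem_sup_left (hD x hx)) ?_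
    rintro _ ⟨x, hx, rfl⟩
    exact AddSubgroup.mem_sup_right ⟨_, hR x hx, hN.dv_nrm k k' l x⟩
  · exact sup_le (fun x hx => AddSubgroup.mem_sup_left (hU x hx))
      fun x hx => AddSubgroup.mem_sup_right (hR x hx)

end Pool.Agent.MP_db5b97_nt.H35
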